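import Mathlib
import Pool.Agent.H25.Theta

namespace Pool.Agent.Results.MP_18c163_nt.Odd

/-- The Gauss series `₂F₁(a, b; c; 4 t)` as a formal power series in `t`. -/
noncomputable def F (a b c : ℚ) : PowerSeries ℚ := PowerSeries.mk fun n =>
  (ascPochhammer ℚ n).eval a * (ascPochhammer ℚ n).eval b /
    ((ascPochhammer ℚ n).eval c * n.factorial) * 4 ^ n

theorem result (a b c d e f n : ℕ) :
    Odd (PowerSeries.coeff n (F (3 / 4 + a) (3 / 4 + b) (3 / 2 + c) *
      (F (1 / 4 + d) (1 / 4 + e) (1 / 2 + f))⁻¹)).den :=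
  H25.Theta.mem_R.1 (H25.Theta.main a b c d e f n)

end Pool.Agent.Results.MP_18c163_nt.Odd
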